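import Pool.Agent.V5helper30.WL.Stm

/-!
# Project WL: certificates (inverse matrices modulo a prime) for four variables
-/

set_option autoImplicit false

open MvPolynomial

namespace Pool.Agent.V5helper48.WL

open Pool.Agent.Helper720.Pow Pool.Agent.V5helper30.WL

variable {K : Type*} [Field K]

abbrev Quad := ℕ × ℕ × ℕ × ℕ

noncomputable def mon (q : Quad) : Fin 4 →₀ ℕ :=
  Finsupp.equivFunOnFinite.symm ![q.1, q.2.1, q.2.2.1, q.2.2.2]

def qd (w : Fin 4 →₀ ℕ) : Quad := (w 0, w 1, w 2, w 3)

lemma mon_qd (w : Fin 4 →₀ ℕ) : mon (qd w) = w := by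
  ext c
  fin_cases c <;> rfl

lemma qd_mon (q : Quad) : qd (mon q) = q := rfl

/-- exponents of degree `t` -/
def qall (t : ℕ) : List Quad :=
  (List.range (t + 1)).flatMap fun a => (List.range (t + 1 - a)).flatMap fun b =>
    (List.range (t + 1 - a - b)).map fun c => (a, b, c, t - a - b - c)

/-- those outside the ideal -/
def ql (d k t : ℕ) : List Quad :=
  (qall t).filter fun q => decide (q.1 / d + q.2.1 / d + q.2.2.1 / d + q.2.2.2 / d < k)

lemma mem_qall {t : ℕ} {q : Quad} : q ∈ qall t ↔ q.1 + q.2.1 + q.2.2.1 + q.2.2.2 = t := by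
  obtain ⟨a, b, c, e⟩ := q
  unfold qall
  simp only [List.mem_flatMap, List.mem_range, List.mem_map, Prod.mk.injEq]
  constructor
  · rintro ⟨a', ha', b', hb', c', hc', h1, h2, h3, h4⟩
    omega
  · intro h
    exact ⟨a, by omega, b, by omega, c, by omega, rfl, rfl, rfl, by omega⟩

lemma mem_NN {n d k i : ℕ} {m : Fin n →₀ ℕ} : m ∈ NN n d k i ↔ m.degree = i ∧ fl d m < k := by
  unfold NN
  rw [Finset.mem_filter, Finset.mem_finsuppAntidiag, Finsupp.degree_eq_sum]
  simp

lemma mem_ql {d k t : ℕ} {q : Quad} : q ∈ ql d k t ↔ mon q ∈ NN 4 d k t := by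
  unfold ql
  rw [List.mem_filter, mem_qall, decide_eq_true_eq, mem_NN, Finsupp.degree_eq_sum]
  unfold fl
  rw [Fin.sum_univ_four, Fin.sum_univ_four]
  rfl

lemma mem_ql' {d k t : ℕ} {w : Fin 4 →₀ ℕ} : qd w ∈ ql d k t ↔ w ∈ NN 4 d k t := by
  rw [mem_ql, mon_qd]

def look : List (Quad × ℕ) → Quad → ℕ
  | [], _ => 0
  | (c, v) :: l, q => if c = q then v else look l q

lemma look_zero : ∀ (l : List Quad) (nums : List ℕ) (q : Quad), q ∉ l → look (l.zip nums) q = 0 := by
  intro l
  induction l with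
  | nil => intro nums q _; simp [look]
  | cons a l ih =>
    intro nums q hq
    cases nums with
    | nil => simp [look]
    | cons v nums =>
      rw [List.mem_cons, not_or] at hq
      rw [List.zip_cons_cons, look, if_neg (fun h => hq.1 h.symm)]
      exact ih nums q hq.2

def dig (i v : ℕ) : ℕ := v / 16 ^ i % 16

def tUp (B : Quad → ℕ) (q : Quad) : ℕ :=
  B (q.1 + 1, q.2.1, q.2.2.1, q.2.2.2) + B (q.1, q.2.1 + 1, q.2.2.1, q.2.2.2) +
    B (q.1, q.2.1, q.2.2.1 + 1, q.2.2.2) + B (q.1, q.2.1, q.2.2.1, q.2.2.2 + 1)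

def tDn (B : Quad → ℕ) (q : Quad) : ℕ :=
  (if q.1 = 0 then 0 else B (q.1 - 1, q.2.1, q.2.2.1, q.2.2.2)) +
    (if q.2.1 = 0 then 0 else B (q.1, q.2.1 - 1, q.2.2.1, q.2.2.2)) +
    (if q.2.2.1 = 0 then 0 else B (q.1, q.2.1, q.2.2.1 - 1, q.2.2.2)) +
    (if q.2.2.2 = 0 then 0 else B (q.1, q.2.1, q.2.2.1, q.2.2.2 - 1))

/-- the check -/
def chk (p : ℕ) (L : List Quad) (t : ℕ → Quad → ℕ) : Bool :=
  L.zipIdx.all fun qj => (List.range L.length).all fun i =>
    decide (t i qj.1 % p = if i = qj.2 then 1 else 0)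

lemma chk_iff {p : ℕ} {L : List Quad} {t : ℕ → Quad → ℕ} (h : chk p L t = true) :
    ∀ i j : Fin L.length, t i (L[j]) % p = if i = j then 1 else 0 := by
  unfold chk at h
  rw [List.all_eq_true] at h
  intro i j
  have h1 := h (L[j], (j : ℕ)) (by
    rw [List.mem_iff_getElem]
    refine ⟨j, by simp, ?_⟩
    rw [List.getElem_zipIdx]
    simp)
  rw [List.all_eq_true] at h1
  have h2 := h1 i (List.mem_range.2 i.2)
  rw [decide_eq_true_eq] at h2
  rw [h2]
  simp [Fin.ext_iff]

lemma sound [CharZero K] {p : ℕ} (hp : 1 < p) {L : List Quad} {t : ℕ → Quad → ℕ}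
    (h : chk p L t = true) (y : Quad → K)
    (hy : ∀ i : ℕ, (L.map fun q => (t i q : K) * y q).sum = 0) : ∀ q ∈ L, y q = 0 := by
  classical
  have h1 := chk_iff h
  have : Fact (1 < p) := ⟨hp⟩
  set T : Matrix (Fin L.length) (Fin L.length) ℤ := fun i j => (t i (L[j]) : ℤ) with hT
  have hT1 : (Int.castRingHom (ZMod p)).mapMatrix T = 1 := by
    ext i j
    rw [RingHom.mapMatrix_apply, Matrix.map_apply, hT, Matrix.one_apply]
    have h2 := h1 i j
    have h3 : ((t i (L[j]) : ℕ) : ZMod p) = ((if i = j then 1 else 0 : ℕ) : ZMod p) := by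
      rw [← h2, ZMod.natCast_mod]
    simp only [eq_intCast, Int.cast_natCast]
    rw [h3]
    split_ifs <;> simp
  have hdet : T.det ≠ 0 := by
    intro h0
    have h2 := RingHom.map_det (Int.castRingHom (ZMod p)) T
    rw [h0, hT1, Matrix.det_one, map_zero] at h2
    exact zero_ne_one h2
  have hdetK : (T.map (Int.castRingHom K)).det ≠ 0 := by
    rw [← RingHom.mapMatrix_apply, ← RingHom.map_det]
    simpa using hdet
  have h3 : (T.map (Int.castRingHom K)).mulVec (fun j => y (L[j])) = 0 := by
    ext i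
    rw [Matrix.mulVec, dotProduct, Pi.zero_apply]
    have h4 := hy i
    rw [← List.sum_ofFn] 
    rw [← h4]
    congr 1
    apply List.ext_getElem
    · simp
    · intro m hm1 hm2
      have hm : m < L.length := by simpa using hm2
      rw [List.getElem_ofFn, List.getElem_map, Matrix.map_apply]
      change (Int.castRingHom K) ((t i (L[m]) : ℕ) : ℤ) * y L[m] = (t i (L[m]) : K) * y L[m]
      simp
  have h5 := Matrix.eq_zero_of_mulVec_eq_zero hdetK h3
  intro q hq
  obtain ⟨m, hm, rfl⟩ := List.getElem_of_mem hq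
  exact congrFun h5 ⟨m, hm⟩

lemma nodup {p : ℕ} (hp : 1 < p) {L : List Quad} {t : ℕ → Quad → ℕ}
    (h : chk p L t = true) : L.Nodup := by
  have h1 := chk_iff h
  rw [List.nodup_iff_injective_getElem]
  intro i j hij
  have hij' : L[i] = L[j] := hij
  by_contra hne
  have h2 := h1 i i
  have h3 := h1 i j
  rw [if_pos rfl, hij'] at h2
  rw [if_neg hne, h2] at h3
  exact one_ne_zero h3

lemma sum_list {L : List Quad} (hn : L.Nodup) {S : Finset (Fin 4 →₀ ℕ)}
    (hS : ∀ w, w ∈ S ↔ qd w ∈ L) (F : (Fin 4 →₀ ℕ) → K) :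
    ∑ w ∈ S, F w = (L.map fun q => F (mon q)).sum := by
  classical
  rw [← List.sum_toFinset _ hn]
  refine Finset.sum_nbij' qd mon ?_ ?_ ?_ ?_ ?_
  · intro w hw
    exact List.mem_toFinset.2 ((hS w).1 hw)
  · intro q hq
    rw [hS, qd_mon]
    exact List.mem_toFinset.1 hq
  · intro w _
    exact mon_qd w
  · intro q _
    exact qd_mon q
  · intro w _
    rw [mon_qd]

lemma degree_add_single (w : Fin 4 →₀ ℕ) (c : Fin 4) :
    (w + Finsupp.single c 1).degree = w.degree + 1 := by
  rw [map_add, Finsupp.degree_single]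

lemma sub_add_single {w : Fin 4 →₀ ℕ} {c : Fin 4} (h : w c ≠ 0) :
    w - Finsupp.single c 1 + Finsupp.single c 1 = w := by
  apply tsub_add_cancel_of_le
  rw [Finsupp.single_le_iff]
  omega

lemma fl_mono {d : ℕ} {v w : Fin 4 →₀ ℕ} (h : v ≤ w) : fl d v ≤ fl d w :=
  Finset.sum_le_sum fun c _ => Nat.div_le_div_right (h c)

lemma shift_sum (d k i : ℕ) (c : Fin 4) (F G : (Fin 4 →₀ ℕ) → K)
    (hG : ∀ w, w ∉ NN 4 d k (i + 1) → G w = 0) :
    ∑ w ∈ NN 4 d k i, F w * G (w + Finsupp.single c 1) =
      ∑ v ∈ NN 4 d k (i + 1), G v * (if v c = 0 then 0 else F (v - Finsupp.single c 1)) := by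
  classical
  have h1 : ∑ w ∈ NN 4 d k i, F w * G (w + Finsupp.single c 1) =
      ∑ w ∈ (NN 4 d k i).filter fun w => w + Finsupp.single c 1 ∈ NN 4 d k (i + 1),
        F w * G (w + Finsupp.single c 1) := by
    rw [Finset.sum_filter]
    refine Finset.sum_congr rfl fun w _ => ?_
    split_ifs with h
    · rfl
    · rw [hG _ h, mul_zero]
  have h2 : ∑ v ∈ NN 4 d k (i + 1), G v * (if v c = 0 then 0 else F (v - Finsupp.single c 1)) =
      ∑ v ∈ (NN 4 d k (i + 1)).filter fun v => v c ≠ 0, F (v - Finsupp.single c 1) * G v := by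
    rw [Finset.sum_filter]
    refine Finset.sum_congr rfl fun v _ => ?_
    by_cases h : v c = 0
    · simp [h]
    · simp [h, mul_comm]
  rw [h1, h2]
  refine Finset.sum_nbij' (fun w => w + Finsupp.single c 1) (fun v => v - Finsupp.single c 1)
    ?_ ?_ ?_ ?_ ?_
  · intro w hw
    rw [Finset.mem_filter] at hw
    rw [Finset.mem_filter]
    refine ⟨hw.2, ?_⟩
    simp
  · intro v hv
    rw [Finset.mem_filter] at hv
    rw [Finset.mem_filter, sub_add_single hv.2]
    refine ⟨?_, hv.1⟩
    have h3 := hv.1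
    rw [mem_NN] at h3 ⊢
    have h4 := degree_add_single (v - Finsupp.single c 1) c
    rw [sub_add_single hv.2] at h4
    refine ⟨by omega, lt_of_le_of_lt (fl_mono tsub_le_self) h3.2⟩
  · intro w _
    exact add_tsub_cancel_right w (Finsupp.single c 1)
  · intro v hv
    rw [Finset.mem_filter] at hv
    exact sub_add_single hv.2
  · intro w _
    rw [add_tsub_cancel_right w (Finsupp.single c 1)]

lemma tUp_eq (B : Quad → ℕ) (w : Fin 4 →₀ ℕ) :
    tUp B (qd w) = ∑ c, B (qd (w + Finsupp.single c 1)) := by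
  rw [Fin.sum_univ_four]
  unfold tUp qd
  simp

lemma tDn_eq (B : Quad → ℕ) (w : Fin 4 →₀ ℕ) :
    tDn B (qd w) = ∑ c, if w c = 0 then 0 else B (qd (w - Finsupp.single c 1)) := by
  rw [Fin.sum_univ_four]
  unfold tDn qd
  simp

theorem inj_cert [CharZero K] {d k i p : ℕ} (hd : 1 ≤ d) (hp : 1 < p) {nums : List ℕ}
    (h : chk p (ql d k i) (fun r q => tUp (fun q' => dig r (look ((ql d k (i + 1)).zip nums) q')) q)
      = true) : InjAt K 4 d k i 1 := by
  classical
  intro f hf hJ
  rw [pow_one] at hJ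
  rw [mem_powIdeal hd] at hJ
  have h0 : ∀ v ∈ NN 4 d k (i + 1),
      ∑ c, (if v c = 0 then 0 else coeff (v - Finsupp.single c 1) f) = 0 := by
    intro v hv
    rw [← coeff_el_mul]
    exact hJ v (mem_NN.1 hv).2
  have hB : ∀ r : ℕ, ∀ v, v ∉ NN 4 d k (i + 1) →
      ((dig r (look ((ql d k (i + 1)).zip nums) (qd v)) : ℕ) : K) = 0 := by
    intro r v hv
    rw [look_zero]
    · simp [dig]
    · rwa [mem_ql']
  have h1 := sound hp h (fun q => coeff (mon q) f) (by
    intro r
    have hs := sum_list (nodup hp h) (S := NN 4 d k i) (fun w => mem_ql'.symm)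
      (fun w => ((tUp (fun q' => dig r (look ((ql d k (i + 1)).zip nums) q')) (qd w) : ℕ) : K) *
        coeff w f)
    simp only [qd_mon] at hs
    rw [← hs]
    have h2 : ∀ w : Fin 4 →₀ ℕ,
        ((tUp (fun q' => dig r (look ((ql d k (i + 1)).zip nums) q')) (qd w) : ℕ) : K) * coeff w f =
        ∑ c, coeff w f *
          ((dig r (look ((ql d k (i + 1)).zip nums) (qd (w + Finsupp.single c 1))) : ℕ) : K) := by
      intro w
      rw [tUp_eq]
      push_cast
      rw [← Finset.mul_sum, mul_comm]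
    simp only [h2]
    rw [Finset.sum_comm]
    have h3 : ∀ c : Fin 4, ∑ w ∈ NN 4 d k i, coeff w f *
          ((dig r (look ((ql d k (i + 1)).zip nums) (qd (w + Finsupp.single c 1))) : ℕ) : K) =
        ∑ v ∈ NN 4 d k (i + 1), ((dig r (look ((ql d k (i + 1)).zip nums) (qd v)) : ℕ) : K) *
          (if v c = 0 then 0 else coeff (v - Finsupp.single c 1) f) := fun c =>
      shift_sum d k i c (fun w => coeff w f)
        (fun w => ((dig r (look ((ql d k (i + 1)).zip nums) (qd w)) : ℕ) : K)) (hB r)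
    simp only [h3]
    rw [Finset.sum_comm]
    refine Finset.sum_eq_zero fun v hv => ?_
    rw [← Finset.mul_sum, h0 v hv, mul_zero])
  rw [mem_powIdeal hd]
  intro m hm
  by_cases hdeg : m.degree = i
  · have := h1 (qd m) (mem_ql'.2 (mem_NN.2 ⟨hdeg, hm⟩))
    rwa [mon_qd] at this
  · by_contra hne
    exact hdeg (degree_of_coeff hf hne)

open Pool.Agent.Helper720.Level (allMon mem_allMon)

theorem surj_cert [CharZero K] {d k i p : ℕ} (hd : 1 ≤ d) (hp : 1 < p) {nums : List ℕ}
    (h : chk p (ql d k (i + 1)) (fun r q => tDn (fun q' => dig r (look ((ql d k i).zip nums) q')) q)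
      = true) : SurjAt K 4 d k i 1 := by
  classical
  apply surj_of_dual hd
  intro y hy hsum
  have hG : ∀ w, w ∉ NN 4 d k (i + 1) → y w = 0 := by
    intro w hw
    by_contra hne
    exact hw (mem_NN.2 (hy w hne))
  have h0 : ∀ m ∈ NN 4 d k i, ∑ c, y (m + Finsupp.single c 1) = 0 := by
    intro m hm
    rw [← hsum m (mem_NN.1 hm).1]
    have h1 : ∀ w : Fin 4 →₀ ℕ, coeff w (el K 4 ^ 1 * monomial m 1) * y w =
        ∑ c, if w = m + Finsupp.single c 1 then y w else 0 := by
      intro w
      rw [pow_one, coeff_el_mul, Finset.sum_mul]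
      refine Finset.sum_congr rfl fun c _ => ?_
      by_cases hw : w = m + Finsupp.single c 1
      · rw [if_pos hw, if_neg (by rw [hw]; simp), coeff_monomial, if_pos, one_mul]
        rw [hw, add_tsub_cancel_right]
      · rw [if_neg hw]
        by_cases hc : w c = 0
        · rw [if_pos hc, zero_mul]
        · rw [if_neg hc, coeff_monomial, if_neg, zero_mul]
          intro he
          apply hw
          rw [he, sub_add_single hc]
    simp only [h1]
    rw [Finset.sum_comm]
    refine Finset.sum_congr rfl fun c _ => ?_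
    rw [Finset.sum_ite_eq', if_pos]
    rw [mem_allMon, degree_add_single, (mem_NN.1 hm).1]
  have h1 := sound hp h (fun q => y (mon q)) (by
    intro r
    have hs := sum_list (nodup hp h) (S := NN 4 d k (i + 1)) (fun w => mem_ql'.symm)
      (fun w => ((tDn (fun q' => dig r (look ((ql d k i).zip nums) q')) (qd w) : ℕ) : K) * y w)
    simp only [qd_mon] at hs
    rw [← hs]
    have h2 : ∀ w : Fin 4 →₀ ℕ,
        ((tDn (fun q' => dig r (look ((ql d k i).zip nums) q')) (qd w) : ℕ) : K) * y w =
        ∑ c, y w * (if w c = 0 then 0 else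
          ((dig r (look ((ql d k i).zip nums) (qd (w - Finsupp.single c 1))) : ℕ) : K)) := by
      intro w
      rw [tDn_eq, ← Finset.mul_sum, mul_comm]
      push_cast
      rfl
    simp only [h2]
    rw [Finset.sum_comm]
    have h3 : ∀ c : Fin 4, ∑ w ∈ NN 4 d k (i + 1), y w * (if w c = 0 then 0 else
          ((dig r (look ((ql d k i).zip nums) (qd (w - Finsupp.single c 1))) : ℕ) : K)) =
        ∑ v ∈ NN 4 d k i, ((dig r (look ((ql d k i).zip nums) (qd v)) : ℕ) : K) *
          y (v + Finsupp.single c 1) := fun c =>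
      (shift_sum d k i c (fun w => ((dig r (look ((ql d k i).zip nums) (qd w)) : ℕ) : K)) y hG).symm
    simp only [h3]
    rw [Finset.sum_comm]
    refine Finset.sum_eq_zero fun v hv => ?_
    rw [← Finset.mul_sum, h0 v hv, mul_zero])
  intro w
  by_cases hw : w ∈ NN 4 d k (i + 1)
  · have := h1 (qd w) (mem_ql'.2 hw)
    rwa [mon_qd] at this
  · exact hG w hw

/-- injectivity in a lower degree -/
theorem down1 {n d k i : ℕ} (hn : 1 ≤ n) (hd : 1 ≤ d) (hi : i < n * (d - 1) + d * (k - 1))
    (h : InjAt K n d k (i + 1) 1) : InjAt K n d k i 1 := by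
  classical
  intro f hf hJ
  rw [pow_one] at hJ
  have h1 : ∀ c : Fin n, X c * f ∈ powIdeal K n d k := by
    intro c
    apply h
    · have := (isHomogeneous_X K c).mul hf
      rwa [add_comm] at this
    · rw [pow_one, mul_left_comm]
      exact Ideal.mul_mem_left _ _ hJ
  rw [mem_powIdeal hd]
  intro m hm
  by_contra hne
  have hdeg := degree_of_coeff hf hne
  have key : ∀ c : Fin n, fl d (m + Finsupp.single c 1) + m c / d = fl d m + (m c + 1) / d := by
    intro c
    unfold fl
    rw [← Finset.add_sum_erase _ _ (Finset.mem_univ c),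
      ← Finset.add_sum_erase _ (fun j => m j / d) (Finset.mem_univ c)]
    have h5 : ∑ x ∈ Finset.univ.erase c, (m + Finsupp.single c 1 : Fin n →₀ ℕ) x / d =
        ∑ x ∈ Finset.univ.erase c, m x / d := by
      refine Finset.sum_congr rfl fun x hx => ?_
      rw [Finsupp.add_apply, Finsupp.single_eq_of_ne (Finset.ne_of_mem_erase hx), add_zero]
    rw [h5, Finsupp.add_apply, Finsupp.single_eq_same]
    ring
  have hsucc : ∀ c : Fin n, (m c + 1) / d = m c / d ∨
      ((m c + 1) / d = m c / d + 1 ∧ m c = d * (m c / d) + (d - 1)) := by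
    intro c
    have h7 : (m c + 1) / d = m c / d + if d ∣ m c + 1 then 1 else 0 := Nat.succ_div ..
    split_ifs at h7 with hdvd
    · right
      refine ⟨h7, ?_⟩
      obtain ⟨e, he⟩ := hdvd
      have h8 : (m c + 1) / d = e := by
        rw [he]
        exact Nat.mul_div_cancel_left _ (by omega)
      have h9 : e = m c / d + 1 := by omega
      rw [h9, mul_add, mul_one] at he
      omega
    · left
      exact h7
  have hex : ∃ c : Fin n, fl d (m + Finsupp.single c 1) < k := by
    by_contra hno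
    push Not at hno
    have h2 : ∀ c : Fin n, m c = d * (m c / d) + (d - 1) := by
      intro c
      have h3 := hno c
      have h4 := key c
      rcases hsucc c with h5 | h5
      · omega
      · exact h5.2
    have h3 : m.degree = d * fl d m + n * (d - 1) := by
      rw [Finsupp.degree_eq_sum]
      unfold fl
      rw [Finset.mul_sum]
      conv_lhs => rw [Finset.sum_congr rfl fun c _ => h2 c]
      rw [Finset.sum_add_distrib, Finset.sum_const, Finset.card_univ, Fintype.card_fin,
        smul_eq_mul]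
    rcases Nat.lt_or_ge (fl d m) (k - 1) with h4 | h4
    · have h5 := hno ⟨0, hn⟩
      have h6 := key ⟨0, hn⟩
      rcases hsucc ⟨0, hn⟩ with h7 | h7 <;> omega
    · have h5 : d * (k - 1) ≤ d * fl d m := Nat.mul_le_mul_left _ h4
      omega
  obtain ⟨c, hc⟩ := hex
  have h2 := (mem_powIdeal hd).1 (h1 c) _ hc
  rw [add_comm, coeff_X_mul] at h2
  exact hne h2

/-- surjectivity in a higher degree -/
theorem up1 {n d k i : ℕ} (h : SurjAt K n d k i 1) : SurjAt K n d k (i + 1) 1 := by
  classical
  intro g hg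
  have h1 : ∀ w : Fin n →₀ ℕ, ∃ f : MvPolynomial (Fin n) K, f.IsHomogeneous (i + 1) ∧
      (w.degree = i + 1 + 1 → monomial w 1 - el K n ^ 1 * f ∈ powIdeal K n d k) := by
    intro w
    by_cases hw : w.degree = i + 1 + 1
    · have h2 : ∃ c, w c ≠ 0 := by
        by_contra hno
        push Not at hno
        have : w = 0 := Finsupp.ext hno
        rw [this] at hw
        simp at hw
      obtain ⟨c, hc⟩ := h2
      have h3 : w - Finsupp.single c 1 + Finsupp.single c 1 = w := by
        apply tsub_add_cancel_of_le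
        rw [Finsupp.single_le_iff]
        omega
      have h4 : (w - Finsupp.single c 1).degree = i + 1 := by
        have h5 : (w - Finsupp.single c 1 + Finsupp.single c 1).degree =
          (w - Finsupp.single c 1).degree + 1 := by rw [map_add, Finsupp.degree_single]
        rw [h3] at h5
        omega
      obtain ⟨f, hf, hfg⟩ := h (monomial (w - Finsupp.single c 1) 1)
        (isHomogeneous_monomial _ h4)
      refine ⟨X c * f, ?_, fun _ => ?_⟩
      · have := (isHomogeneous_X K c).mul hf
        rwa [add_comm] at this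
      · have h6 : (monomial w (1 : K)) = X c * monomial (w - Finsupp.single c 1) 1 := by
          rw [X, monomial_mul, one_mul, add_comm, h3]
        rw [h6, mul_left_comm, ← mul_sub]
        exact Ideal.mul_mem_left _ _ hfg
    · exact ⟨0, isHomogeneous_zero _ _ _, fun h => absurd h hw⟩
  choose F hF1 hF2 using h1
  refine ⟨∑ w ∈ g.support, C (coeff w g) * F w, ?_, ?_⟩
  · refine IsHomogeneous.sum _ _ _ fun w _ => ?_
    have := (isHomogeneous_C (Fin n) (coeff w g)).mul (hF1 w)
    rwa [zero_add] at this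
  · have h2 : g - el K n ^ 1 * ∑ w ∈ g.support, C (coeff w g) * F w =
        ∑ w ∈ g.support, C (coeff w g) * (monomial w 1 - el K n ^ 1 * F w) := by
      have hg2 : ∑ w ∈ g.support, C (coeff w g) * monomial w 1 = g := by
        conv_rhs => rw [g.as_sum]
        refine Finset.sum_congr rfl fun w _ => ?_
        rw [C_mul_monomial, mul_one]
      simp only [mul_sub]
      rw [Finset.sum_sub_distrib, hg2, Finset.mul_sum]
      congr 1
      refine Finset.sum_congr rfl fun w _ => ?_
      ring
    rw [h2]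
    refine Ideal.sum_mem _ fun w hw => ?_
    exact Ideal.mul_mem_left _ _ (hF2 w (degree_of_coeff hg (mem_support_iff.1 hw)))

end Pool.Agent.V5helper48.WL
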